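import Pool.Agent.H69.Va2

namespace Pool.Agent.Results.MP_f748d5_al.Yes
open Pool.Agent.H69.Va Monoid

theorem result : ∀ (G0 : Type) [Group G0] (G : Bool → Type) [∀ i, Group (G i)]
    (φ : ∀ i, G0 →* G i), (∀ i, Function.Injective (φ i)) → (∀ i, Group.FG (G i)) →
    (∀ i, VirtAb (G i)) → VirtCyc G0 →
    ∃ (E : Type) (_ : Group E), Group.FG E ∧ VirtAb E ∧
      ∃ ν : PushoutI φ →* E, (∀ i, Function.Injective (ν.comp (PushoutI.of i))) ∧
        VirtCyc ((ν.comp (PushoutI.of true)).range ⊓ (ν.comp (PushoutI.of false)).range :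
          Subgroup E) :=
  fun _ _ _ _ φ h1 h2 h3 h4 => va_main φ h1 h2 h3 h4

end Pool.Agent.Results.MP_f748d5_al.Yes
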